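import Mathlib

/-!
# Odd wheels, stars and disjoint unions
-/

set_option autoImplicit false

namespace Pool.Agent.Q165.OW

open Finset SimpleGraph

/-- The odd wheel `W_{2 k + 1}`: the hub `none` is joined to every vertex of the cycle `C_{2 k}`
on the vertices `some j`. -/
def wheel (k : ℕ) : SimpleGraph (Option (Fin (2 * k))) :=
  SimpleGraph.fromRel fun x y =>
    x = none ∨ ∃ i j, x = some i ∧ y = some j ∧ (cycleGraph (2 * k)).Adj i j

/-- The star `K_{1, k}` with centre `none` and leaves `some j`. -/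
def star (k : ℕ) : SimpleGraph (Option (Fin k)) :=
  SimpleGraph.fromRel fun x _ => x = none

/-- The vertex-disjoint union of a family of graphs. -/
def disjUnion {m : ℕ} {V : Fin m → Type} (G : (i : Fin m) → SimpleGraph (V i)) :
    SimpleGraph (Σ i, V i) :=
  SimpleGraph.fromRel fun p q => ∃ (i : Fin m) (a b : V i), p = ⟨i, a⟩ ∧ q = ⟨i, b⟩ ∧ (G i).Adj a b

/-- `F`, the disjoint union of the odd wheels `W_{2 k_i + 1}`. -/
def wheels {m : ℕ} (k : Fin m → ℕ) : SimpleGraph (Σ i, Option (Fin (2 * k i))) :=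
  disjUnion fun i => wheel (k i)

/-- `F*`, the disjoint union of the stars `K_{1, k_i}`. -/
def starForest {m : ℕ} (k : Fin m → ℕ) : SimpleGraph (Σ i, Option (Fin (k i))) :=
  disjUnion fun i => star (k i)

/-- The value of `ex(n, F)` conjectured in the problem:
`max_{1 ≤ n₀ ≤ n} (n₀ (n - n₀) + ex(n₀, F*) + 1)`. -/
noncomputable def conjValue {m : ℕ} (k : Fin m → ℕ) (n : ℕ) : ℕ :=
  (Finset.Icc 1 n).sup fun n₀ => n₀ * (n - n₀) + extremalNumber n₀ (starForest k) + 1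

lemma wheel_hub {k : ℕ} (j : Fin (2 * k)) : (wheel k).Adj none (some j) := by
  simp [wheel]

lemma wheel_rim {k : ℕ} {i j : Fin (2 * k)} (h : (cycleGraph (2 * k)).Adj i j) :
    (wheel k).Adj (some i) (some j) := by
  have hne : i ≠ j := h.ne
  rw [wheel, SimpleGraph.fromRel_adj]
  exact ⟨fun e => hne (Option.some.inj e), Or.inl (Or.inr ⟨i, j, rfl, rfl, h⟩)⟩

lemma star_adj {k : ℕ} {x y : Option (Fin k)} :
    (star k).Adj x y ↔ x ≠ y ∧ (x = none ∨ y = none) := by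
  rw [star, SimpleGraph.fromRel_adj]

lemma disj_adj {m : ℕ} {V : Fin m → Type} (G : (i : Fin m) → SimpleGraph (V i))
    {i : Fin m} {a b : V i} (h : (G i).Adj a b) : (disjUnion G).Adj ⟨i, a⟩ ⟨i, b⟩ := by
  rw [disjUnion, SimpleGraph.fromRel_adj]
  refine ⟨fun e => h.ne (eq_of_heq (Sigma.mk.inj e).2), Or.inl ⟨i, a, b, rfl, rfl, h⟩⟩

lemma disj_elim {m : ℕ} {V : Fin m → Type} (G : (i : Fin m) → SimpleGraph (V i))
    {p q : Σ i, V i} (h : (disjUnion G).Adj p q) :
    ∃ (i : Fin m) (a b : V i), p = ⟨i, a⟩ ∧ q = ⟨i, b⟩ ∧ (G i).Adj a b := by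
  rw [disjUnion, SimpleGraph.fromRel_adj] at h
  rcases h with ⟨-, h | h⟩
  · exact h
  · obtain ⟨i, a, b, e1, e2, e3⟩ := h
    exact ⟨i, b, a, e2, e1, e3.symm⟩

end Pool.Agent.Q165.OW
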