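import Pool.Agent.Q165.OW.Defs

/-!
# The lower bound: a graph without the union of wheels
-/

set_option autoImplicit false

namespace Pool.Agent.Q165.OW

open Finset SimpleGraph

/-- Side and index of a vertex. -/
def code {a b : ℕ} : Fin a ⊕ Fin b → Bool × ℕ
  | Sum.inl x => (false, x)
  | Sum.inr y => (true, y)

lemma code_inj {a b : ℕ} {x y : Fin a ⊕ Fin b} (h1 : (code x).1 = (code y).1)
    (h2 : (code x).2 = (code y).2) : x = y := by
  cases x <;> cases y <;> simp_all [code, Fin.ext_iff]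

/-- Different sides, or the same side and the same pair. -/
def rel {a b : ℕ} (x y : Fin a ⊕ Fin b) : Prop :=
  (code x).1 ≠ (code y).1 ∨ (code x).2 / 2 = (code y).2 / 2

lemma rel_symm {a b : ℕ} {x y : Fin a ⊕ Fin b} (h : rel x y) : rel y x := by
  rcases h with h | h
  · exact Or.inl (Ne.symm h)
  · exact Or.inr h.symm

/-- `t` universal vertices joined to a complete bipartite graph with sides `a` and `b`, to which
a maximum matching is added in each side. -/
def bigGraph (t a b : ℕ) : SimpleGraph (Fin t ⊕ (Fin a ⊕ Fin b)) where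
  Adj p q := p ≠ q ∧ ∀ x y, p = Sum.inr x → q = Sum.inr y → rel x y
  symm := ⟨fun _ _ h => ⟨h.1.symm, fun x y h1 h2 => rel_symm (h.2 y x h2 h1)⟩⟩
  loopless := ⟨fun _ h => h.1 rfl⟩

lemma three {a b : ℕ} {x y z : Fin a ⊕ Fin b} (h1 : (code x).1 = (code y).1)
    (h2 : (code y).1 = (code z).1) (h3 : (code x).2 / 2 = (code y).2 / 2)
    (h4 : (code y).2 / 2 = (code z).2 / 2) (hxy : x ≠ y) (hyz : y ≠ z) (hxz : x ≠ z) : False := by
  have e1 : (code x).2 ≠ (code y).2 := fun h => hxy (code_inj h1 h)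
  have e2 : (code y).2 ≠ (code z).2 := fun h => hyz (code_inj h2 h)
  have e3 : (code x).2 ≠ (code z).2 := fun h => hxz (code_inj (h1.trans h2) h)
  omega

lemma bool_eq {s u v : Bool} (h1 : s ≠ v) (h2 : u ≠ v) : s = u := by
  cases s <;> cases u <;> cases v <;> simp_all

lemma no_wheel {a b N : ℕ} (hN : 4 ≤ N) (g : Option (Fin N) → Fin a ⊕ Fin b)
    (hinj : Function.Injective g) (h1 : ∀ j, rel (g none) (g (some j)))
    (h2 : ∀ i j, (cycleGraph N).Adj i j → rel (g (some i)) (g (some j))) : False := by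
  obtain ⟨q, rfl⟩ : ∃ q, N = q + 4 := ⟨N - 4, by omega⟩
  have hh : ∀ j, g none ≠ g (some j) := fun j h => by simpa using hinj h
  have hr : ∀ i j, g (some i) = g (some j) → i = j := fun i j h => Option.some.inj (hinj h)
  obtain ⟨j0, hj0⟩ : ∃ j0 : Fin (q + 4), ∀ j, j ≠ j0 → (code (g (some j))).1 ≠ (code (g none)).1 := by
    by_cases hex : ∃ j0 : Fin (q + 4), (code (g (some j0))).1 = (code (g none)).1
    · obtain ⟨j0, h0⟩ := hex
      refine ⟨j0, fun j hj hs => ?_⟩
      have c1 : (code (g none)).2 / 2 = (code (g (some j0))).2 / 2 := by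
        rcases h1 j0 with h | h
        · exact absurd h0.symm h
        · exact h
      have c2 : (code (g none)).2 / 2 = (code (g (some j))).2 / 2 := by
        rcases h1 j with h | h
        · exact absurd hs.symm h
        · exact h
      exact three h0.symm (h0.trans hs.symm) c1 (c1.symm.trans c2) (hh j0)
        (fun h => hj (hr _ _ h).symm) (hh j)
    · exact ⟨0, fun j _ hs => hex ⟨j, hs⟩⟩
  have hadj : ∀ j : Fin (q + 4), rel (g (some j)) (g (some (j + 1))) := by
    intro j
    apply h2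
    rw [cycleGraph_adj]
    right
    exact add_sub_cancel_left j 1
  have n1 : (1 : Fin (q + 4)) ≠ 0 := by
    intro h
    have := congrArg Fin.val h
    simp at this
  have n2 : (1 : Fin (q + 4)) + 1 ≠ 0 := by
    intro h
    have := congrArg Fin.val h
    rw [Fin.val_add] at this
    simp at this
    rw [Nat.mod_eq_of_lt (by omega)] at this
    omega
  have n3 : (1 : Fin (q + 4)) + 1 + 1 ≠ 0 := by
    intro h
    have := congrArg Fin.val h
    rw [Fin.val_add, Fin.val_add] at this
    simp at this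
    rw [Nat.mod_eq_of_lt (by omega)] at this
    omega
  have d1 : j0 + 1 ≠ j0 := fun h => n1 (add_left_cancel (h.trans (add_zero j0).symm))
  have d2 : j0 + 1 + 1 ≠ j0 := fun h => n2 (add_left_cancel
    ((add_assoc j0 1 1).symm.trans (h.trans (add_zero j0).symm)))
  have d3 : j0 + 1 + 1 + 1 ≠ j0 := fun h => n3 (add_left_cancel (a := j0) (by
    rw [add_zero, ← add_assoc, ← add_assoc]; exact h))
  have e12 : j0 + 1 ≠ j0 + 1 + 1 := fun h => n1 (add_left_cancel ((add_zero (j0 + 1)).trans h)).symm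
  have e23 : j0 + 1 + 1 ≠ j0 + 1 + 1 + 1 := fun h =>
    n1 (add_left_cancel ((add_zero (j0 + 1 + 1)).trans h)).symm
  have e13 : j0 + 1 ≠ j0 + 1 + 1 + 1 := fun h => n2 (add_left_cancel (a := j0 + 1) (by
    rw [add_zero, ← add_assoc]; exact h.symm))
  have s12 := bool_eq (hj0 _ d1) (hj0 _ d2)
  have s23 := bool_eq (hj0 _ d2) (hj0 _ d3)
  have a12 : (code (g (some (j0 + 1)))).2 / 2 = (code (g (some (j0 + 1 + 1)))).2 / 2 := by
    rcases hadj (j0 + 1) with h | h
    · exact absurd s12 h
    · exact h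
  have a23 : (code (g (some (j0 + 1 + 1)))).2 / 2 = (code (g (some (j0 + 1 + 1 + 1)))).2 / 2 := by
    rcases hadj (j0 + 1 + 1) with h | h
    · exact absurd s23 h
    · exact h
  exact three s12 s23 a12 a23 (fun h => e12 (hr _ _ h)) (fun h => e23 (hr _ _ h))
    (fun h => e13 (hr _ _ h))

lemma free {m a b : ℕ} (hm : 1 ≤ m) {k : Fin m → ℕ} (hk : ∀ i, 2 ≤ k i) :
    (wheels k).Free (bigGraph (m - 1) a b) := by
  rintro ⟨⟨f, hinj⟩⟩
  have hex : ∃ i : Fin m, ∀ w, ∃ x, f ⟨i, w⟩ = Sum.inr x := by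
    by_contra hno
    push Not at hno
    choose w hw using hno
    have h : ∀ i : Fin m, ∃ u, f ⟨i, w i⟩ = Sum.inl u := by
      intro i
      rcases e : f ⟨i, w i⟩ with u | x
      · exact ⟨u, rfl⟩
      · exact absurd e (hw i x)
    choose u hu using h
    have huinj : Function.Injective u := by
      intro i j hij
      have : f ⟨i, w i⟩ = f ⟨j, w j⟩ := by rw [hu, hu, hij]
      exact (Sigma.mk.inj (hinj this)).1
    have := Fintype.card_le_of_injective u huinj
    rw [Fintype.card_fin, Fintype.card_fin] at this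
    omega
  obtain ⟨i, hi⟩ := hex
  choose g hg using hi
  have hrel : ∀ w w', (wheel (k i)).Adj w w' → rel (g w) (g w') := by
    intro w w' h
    have h1 : (bigGraph (m - 1) a b).Adj (f ⟨i, w⟩) (f ⟨i, w'⟩) :=
      f.map_rel (disj_adj (fun i => wheel (k i)) h)
    exact h1.2 _ _ (hg w) (hg w')
  have hk' := hk i
  refine no_wheel (N := 2 * k i) (by omega) g ?_ (fun j => hrel _ _ (wheel_hub j))
    (fun x y h => hrel _ _ (wheel_rim h))
  intro w w' hww
  have : f ⟨i, w⟩ = f ⟨i, w'⟩ := by rw [hg, hg, hww]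
  exact eq_of_heq (Sigma.mk.inj (hinj this)).2

open scoped Classical in
lemma degree_eq {t a b : ℕ} (p : Fin t ⊕ (Fin a ⊕ Fin b)) :
    (bigGraph t a b).degree p = ∑ i : Fin t, (if (bigGraph t a b).Adj p (Sum.inl i) then 1 else 0) +
      (∑ x : Fin a, (if (bigGraph t a b).Adj p (Sum.inr (Sum.inl x)) then 1 else 0) +
        ∑ y : Fin b, (if (bigGraph t a b).Adj p (Sum.inr (Sum.inr y)) then 1 else 0)) := by
  rw [← card_neighborFinset_eq_degree, neighborFinset_eq_filter, Finset.card_filter,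
    Fintype.sum_sum_type, Fintype.sum_sum_type]

lemma adj_left {t a b : ℕ} {p q : Fin t ⊕ (Fin a ⊕ Fin b)} (hne : p ≠ q)
    (h : (∃ i, p = Sum.inl i) ∨ ∃ i, q = Sum.inl i) : (bigGraph t a b).Adj p q := by
  refine ⟨hne, fun x y e1 e2 => ?_⟩
  rcases h with ⟨i, rfl⟩ | ⟨i, rfl⟩
  · exact absurd e1 (by simp)
  · exact absurd e2 (by simp)

lemma adj_side {t a b : ℕ} (x : Fin a) (y : Fin b) :
    (bigGraph t a b).Adj (Sum.inr (Sum.inl x)) (Sum.inr (Sum.inr y)) := by
  refine ⟨by simp, fun u v e1 e2 => ?_⟩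
  rw [← Sum.inr.inj e1, ← Sum.inr.inj e2]
  exact Or.inl (by simp [code])

/-- The partner of an index. -/
lemma partner {a : ℕ} (x : Fin a) (hx : (x : ℕ) + 1 < a) : ∃ y : Fin a, x ≠ y ∧
    (x : ℕ) / 2 = (y : ℕ) / 2 := by
  by_cases h : (x : ℕ) % 2 = 0
  · refine ⟨⟨x + 1, hx⟩, fun e => ?_, ?_⟩
    · have := congrArg Fin.val e
      simp at this
    · simp only
      omega
  · refine ⟨⟨x - 1, by omega⟩, fun e => ?_, ?_⟩
    · have := congrArg Fin.val e
      simp only at this
      omega
    · simp only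
      omega

open scoped Classical in
lemma deg_top {t a b : ℕ} (i : Fin t) : t + a + b ≤ (bigGraph t a b).degree (Sum.inl i) + 1 := by
  have h : univ.erase (Sum.inl i : Fin t ⊕ (Fin a ⊕ Fin b)) ⊆ (bigGraph t a b).neighborFinset (Sum.inl i) := by
    intro q hq
    rw [mem_neighborFinset]
    exact adj_left (Finset.ne_of_mem_erase hq).symm (Or.inl ⟨i, rfl⟩)
  have h1 := card_le_card h
  rw [card_erase_of_mem (mem_univ _), Finset.card_univ, card_neighborFinset_eq_degree] at h1
  simp only [Fintype.card_sum, Fintype.card_fin] at h1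
  omega

open scoped Classical in
lemma deg_left {t a b : ℕ} (x : Fin a) :
    t + b + (if (x : ℕ) + 1 < a then 1 else 0) ≤
      (bigGraph t a b).degree (Sum.inr (Sum.inl x)) := by
  rw [degree_eq]
  have h1 : ∑ i : Fin t, (if (bigGraph t a b).Adj (Sum.inr (Sum.inl x)) (Sum.inl i) then 1 else 0)
      = t := by
    rw [Finset.sum_congr rfl fun i _ => if_pos (adj_left (by simp) (Or.inr ⟨i, rfl⟩))]
    simp
  have h2 : ∑ y : Fin b, (if (bigGraph t a b).Adj (Sum.inr (Sum.inl x)) (Sum.inr (Sum.inr y))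
      then 1 else 0) = b := by
    rw [Finset.sum_congr rfl fun y _ => if_pos (adj_side x y)]
    simp
  have h3 : (if (x : ℕ) + 1 < a then 1 else 0) ≤ ∑ y : Fin a,
      (if (bigGraph t a b).Adj (Sum.inr (Sum.inl x)) (Sum.inr (Sum.inl y)) then 1 else 0) := by
    split_ifs with hx
    · obtain ⟨y, hne, hy⟩ := partner x hx
      have : (bigGraph t a b).Adj (Sum.inr (Sum.inl x)) (Sum.inr (Sum.inl y)) := by
        refine ⟨by simpa using hne, fun u v e1 e2 => ?_⟩
        rw [← Sum.inr.inj e1, ← Sum.inr.inj e2]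
        exact Or.inr hy
      refine le_trans ?_ (Finset.single_le_sum (fun _ _ => Nat.zero_le _) (mem_univ y))
      rw [if_pos this]
    · exact Nat.zero_le _
  rw [h1, h2]
  omega

open scoped Classical in
lemma deg_right {t a b : ℕ} (x : Fin b) :
    t + a + (if (x : ℕ) + 1 < b then 1 else 0) ≤
      (bigGraph t a b).degree (Sum.inr (Sum.inr x)) := by
  rw [degree_eq]
  have h1 : ∑ i : Fin t, (if (bigGraph t a b).Adj (Sum.inr (Sum.inr x)) (Sum.inl i) then 1 else 0)
      = t := by
    rw [Finset.sum_congr rfl fun i _ => if_pos (adj_left (by simp) (Or.inr ⟨i, rfl⟩))]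
    simp
  have h2 : ∑ y : Fin a, (if (bigGraph t a b).Adj (Sum.inr (Sum.inr x)) (Sum.inr (Sum.inl y))
      then 1 else 0) = a := by
    rw [Finset.sum_congr rfl fun y _ => if_pos (adj_side y x).symm]
    simp
  have h3 : (if (x : ℕ) + 1 < b then 1 else 0) ≤ ∑ y : Fin b,
      (if (bigGraph t a b).Adj (Sum.inr (Sum.inr x)) (Sum.inr (Sum.inr y)) then 1 else 0) := by
    split_ifs with hx
    · obtain ⟨y, hne, hy⟩ := partner x hx
      have : (bigGraph t a b).Adj (Sum.inr (Sum.inr x)) (Sum.inr (Sum.inr y)) := by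
        refine ⟨by simpa using hne, fun u v e1 e2 => ?_⟩
        rw [← Sum.inr.inj e1, ← Sum.inr.inj e2]
        exact Or.inr hy
      refine le_trans ?_ (Finset.single_le_sum (fun _ _ => Nat.zero_le _) (mem_univ y))
      rw [if_pos this]
    · exact Nat.zero_le _
  rw [h1, h2]
  omega

lemma sum_ind (a : ℕ) : a ≤ ∑ x : Fin a, (if (x : ℕ) + 1 < a then 1 else 0) + 1 := by
  rw [Fin.sum_univ_eq_sum_range (fun x => if x + 1 < a then 1 else 0) a]
  cases a with
  | zero => simp
  | succ a =>
    rw [Finset.sum_range_succ, Finset.sum_congr rfl (g := fun _ => 1) fun x hx => by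
      rw [if_pos]
      have := mem_range.mp hx
      omega]
    simp

open scoped Classical in
lemma edges {t a b : ℕ} : t * (t + a + b) + a * (t + b) + a + b * (t + a) + b ≤
    2 * (bigGraph t a b).edgeFinset.card + t + 2 := by
  rw [← sum_degrees_eq_twice_card_edges, Fintype.sum_sum_type, Fintype.sum_sum_type]
  have h1 : t * (t + a + b) ≤ ∑ i : Fin t, (bigGraph t a b).degree (Sum.inl i) + t := by
    have : ∑ i : Fin t, (t + a + b) ≤ ∑ i : Fin t, ((bigGraph t a b).degree (Sum.inl i) + 1) :=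
      Finset.sum_le_sum fun i _ => deg_top i
    rw [Finset.sum_const, Finset.card_univ, Fintype.card_fin, smul_eq_mul,
      Finset.sum_add_distrib, Finset.sum_const, Finset.card_univ, Fintype.card_fin,
      smul_eq_mul, mul_one] at this
    exact this
  have h2 : a * (t + b) + a ≤ ∑ x : Fin a, (bigGraph t a b).degree (Sum.inr (Sum.inl x)) + 1 := by
    have : ∑ x : Fin a, (t + b + (if (x : ℕ) + 1 < a then 1 else 0)) ≤
        ∑ x : Fin a, (bigGraph t a b).degree (Sum.inr (Sum.inl x)) :=
      Finset.sum_le_sum fun x _ => deg_left x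
    rw [Finset.sum_add_distrib, Finset.sum_const, Finset.card_univ, Fintype.card_fin,
      smul_eq_mul] at this
    have := sum_ind a
    omega
  have h3 : b * (t + a) + b ≤ ∑ x : Fin b, (bigGraph t a b).degree (Sum.inr (Sum.inr x)) + 1 := by
    have : ∑ x : Fin b, (t + a + (if (x : ℕ) + 1 < b then 1 else 0)) ≤
        ∑ x : Fin b, (bigGraph t a b).degree (Sum.inr (Sum.inr x)) :=
      Finset.sum_le_sum fun x _ => deg_right x
    rw [Finset.sum_add_distrib, Finset.sum_const, Finset.card_univ, Fintype.card_fin,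
      smul_eq_mul] at this
    have := sum_ind b
    omega
  omega

end Pool.Agent.Q165.OW
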