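import Mathlib

/-!
# Star forests in graphs with many edges

Every graph with more than `(m - 1/2) n + C` edges contains pairwise disjoint stars with
`2, 4, ..., 2 m` leaves.
-/

set_option autoImplicit false

namespace Pool.Agent.Q165.OW

open Finset SimpleGraph

open scoped Classical in
/-- Twice the number of edges inside `U`. -/
noncomputable def dsum {V : Type} [Fintype V] (G : SimpleGraph V) (U : Finset V) : ℕ :=
  ∑ v ∈ U, (U.filter (G.Adj v)).card

/-- Pairwise disjoint stars with `2, 4, ..., 2 m` leaves inside `U`. -/
def Stars {V : Type} [DecidableEq V] (G : SimpleGraph V) (m : ℕ) (U : Finset V) : Prop :=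
  ∃ (c : ℕ → V) (S : ℕ → Finset V),
    (∀ j, j < m → c j ∈ U ∧ S j ⊆ U ∧ (∀ x ∈ S j, G.Adj (c j) x) ∧ (S j).card = 2 * (j + 1)) ∧
    ∀ i j, i < m → j < m → i ≠ j → Disjoint (insert (c i) (S i)) (insert (c j) (S j))

open scoped Classical in
lemma dsum_sdiff {V : Type} [Fintype V] (G : SimpleGraph V) (U X : Finset V) (D : ℕ)
    (hX : ∀ x ∈ X, (U.filter (G.Adj x)).card ≤ D) (hXU : X ⊆ U) :
    dsum G U ≤ dsum G (U \ X) + 2 * (X.card * D) := by
  unfold dsum
  have h1 : ∑ v ∈ U, (U.filter (G.Adj v)).card =
      ∑ v ∈ U \ X, (U.filter (G.Adj v)).card + ∑ v ∈ X, (U.filter (G.Adj v)).card :=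
    (Finset.sum_sdiff hXU).symm
  have h2 : ∑ v ∈ X, (U.filter (G.Adj v)).card ≤ X.card * D := by
    refine (Finset.sum_le_card_nsmul X _ D hX).trans ?_
    simp
  have h3 : ∀ v ∈ U \ X, (U.filter (G.Adj v)).card =
      ((U \ X).filter (G.Adj v)).card + (X.filter (G.Adj v)).card := by
    intro v _
    rw [← Finset.card_union_of_disjoint]
    · congr 1
      rw [← Finset.filter_union, Finset.sdiff_union_of_subset hXU]
    · exact Finset.disjoint_filter_filter Finset.sdiff_disjoint
  have h4 : ∑ v ∈ U \ X, (X.filter (G.Adj v)).card ≤ ∑ v ∈ X, (U.filter (G.Adj v)).card := by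
    have e : ∑ v ∈ U \ X, (X.filter (G.Adj v)).card =
        ∑ x ∈ X, ((U \ X).filter (G.Adj x)).card := by
      simp only [Finset.card_filter]
      rw [Finset.sum_comm]
      refine Finset.sum_congr rfl fun x _ => Finset.sum_congr rfl fun y _ => ?_
      by_cases h : G.Adj x y
      · rw [if_pos h, if_pos h.symm]
      · rw [if_neg h, if_neg (fun h' => h h'.symm)]
    rw [e]
    exact Finset.sum_le_sum fun x _ =>
      Finset.card_le_card (Finset.filter_subset_filter _ Finset.sdiff_subset)
  rw [h1, Finset.sum_congr rfl h3, Finset.sum_add_distrib]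
  omega

/-- The constants of the main induction. -/
def cst : ℕ → ℕ
  | 0 => 0
  | m + 1 => cst m + 2 * ((2 * m + 3) * ((m + 1) * (m + 3)))

open scoped Classical in
lemma stars {V : Type} [Fintype V] (G : SimpleGraph V) (m : ℕ) :
    ∀ U : Finset V, 2 * m * U.card + cst m < dsum G U + U.card → Stars G m U := by
  induction m with
  | zero =>
    intro U hU
    by_cases hne : U.Nonempty
    · obtain ⟨x, hx⟩ := hne
      exact ⟨fun _ => x, fun _ => ∅, fun j hj => absurd hj (Nat.not_lt_zero j),
        fun i j hi => absurd hi (Nat.not_lt_zero i)⟩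
    · rw [Finset.not_nonempty_iff_eq_empty] at hne
      subst hne
      simp [dsum] at hU
  | succ m ih =>
    intro U hU
    -- a star at `v` together with a system of stars avoiding it
    have key : ∀ (v : V) (X : Finset V), v ∈ U → X ⊆ U → v ∉ X → (∀ x ∈ X, G.Adj v x) →
        X.card = 2 * (m + 1) → Stars G m (U \ insert v X) → Stars G (m + 1) U := by
      intro v X hv hXU hvX hadj hcard hst
      obtain ⟨c, S, h1, h2⟩ := hst
      refine ⟨fun j => if j = m then v else c j, fun j => if j = m then X else S j, ?_, ?_⟩
      · intro j hj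
        by_cases hjm : j = m
        · subst hjm
          simp only [if_true]
          exact ⟨hv, hXU, hadj, hcard⟩
        · simp only [if_neg hjm]
          obtain ⟨a, b, d, e⟩ := h1 j (by omega)
          exact ⟨(mem_sdiff.mp a).1, b.trans sdiff_subset, d, e⟩
      · have hdis : ∀ j, j < m → Disjoint (insert v X) (insert (c j) (S j)) := by
          intro j hj
          obtain ⟨a, b, -, -⟩ := h1 j hj
          refine Finset.disjoint_left.mpr fun x hx hx' => ?_
          have : x ∈ U \ insert v X := by
            rcases mem_insert.mp hx' with rfl | h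
            · exact a
            · exact b h
          exact (mem_sdiff.mp this).2 hx
        intro i j hi hj hij
        by_cases him : i = m
        · subst him
          have hjm : j ≠ i := fun h => hij h.symm
          simp only [if_true, if_neg hjm]
          exact hdis j (by omega)
        · by_cases hjm : j = m
          · subst hjm
            simp only [if_true, if_neg him]
            exact (hdis i (by omega)).symm
          · simp only [if_neg him, if_neg hjm]
            exact h2 i j (by omega) (by omega) hij
    by_cases hbig : ∃ v ∈ U, (m + 1) * (m + 3) < (U.filter (G.Adj v)).card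
    · obtain ⟨v, hv, hdeg⟩ := hbig
      -- remove `v`
      have hlt : (U.filter (G.Adj v)).card ≤ U.card - 1 := by
        have : U.filter (G.Adj v) ⊆ U.erase v := by
          intro x hx
          rw [mem_filter] at hx
          exact mem_erase.mpr ⟨fun h => G.loopless.irrefl v (h ▸ hx.2), hx.1⟩
        have h := card_le_card this
        rwa [card_erase_of_mem hv] at h
      have hpos : 0 < U.card := card_pos.mpr ⟨v, hv⟩
      have h1 := dsum_sdiff G U {v} (U.card - 1) (fun x hx => by
        rw [mem_singleton] at hx; subst hx; exact hlt) (by simpa using hv)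
      have hUc : (U \ {v}).card = U.card - 1 := by
        rw [card_sdiff_of_subset (by simpa using hv), card_singleton]
      obtain ⟨u, hu⟩ : ∃ u, U.card = u + 1 := ⟨U.card - 1, by omega⟩
      have hst : Stars G m (U \ {v}) := by
        refine ih _ ?_
        rw [hUc, hu, Nat.add_sub_cancel]
        rw [card_singleton, hu, Nat.add_sub_cancel, one_mul] at h1
        rw [hu] at hU
        simp only [cst] at hU
        have e1 : 2 * (m + 1) * (u + 1) = 2 * m * u + 2 * u + 2 * m + 2 := by ring
        rw [e1] at hU
        generalize 2 * m * u = p at hU ⊢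
        generalize (2 * m + 3) * ((m + 1) * (m + 3)) = q at hU
        omega
      obtain ⟨c, S, h2, h3⟩ := hst
      -- the vertices used by the system
      set Z : Finset V := (range m).biUnion fun j => insert (c j) (S j) with hZ
      have hZc : Z.card ≤ m * (m + 2) := by
        have h4 : Z.card ≤ ∑ j ∈ range m, (2 * (j + 1) + 1) := by
          refine card_biUnion_le.trans (sum_le_sum fun j hj => ?_)
          have := (h2 j (mem_range.mp hj)).2.2.2
          exact (card_insert_le _ _).trans (by omega)
        have h5 : ∀ t : ℕ, ∑ j ∈ range t, (2 * (j + 1) + 1) = t * (t + 2) := by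
          intro t
          induction t with
          | zero => rfl
          | succ t iht => rw [sum_range_succ, iht]; ring
        rw [h5] at h4
        exact h4
      have h6 : 2 * (m + 1) ≤ ((U.filter (G.Adj v)) \ Z).card := by
        have h7 : (U.filter (G.Adj v)).card - Z.card ≤ ((U.filter (G.Adj v)) \ Z).card :=
          le_card_sdiff _ _
        have e3 : (m + 1) * (m + 3) = m * (m + 2) + (2 * m + 3) := by ring
        generalize (m + 1) * (m + 3) = A at hdeg e3
        generalize m * (m + 2) = B at hZc e3
        omega
      obtain ⟨X, hX1, hX2⟩ := exists_subset_card_eq h6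
      have hXU : X ⊆ U := fun x hx => (mem_filter.mp (mem_sdiff.mp (hX1 hx)).1).1
      have hXadj : ∀ x ∈ X, G.Adj v x := fun x hx => (mem_filter.mp (mem_sdiff.mp (hX1 hx)).1).2
      have hvX : v ∉ X := fun h => G.loopless.irrefl v (hXadj v h)
      refine key v X hv hXU hvX hXadj hX2 ⟨c, S, ?_, h3⟩
      intro j hj
      obtain ⟨a, b, d, e⟩ := h2 j hj
      have hsub : ∀ x ∈ insert (c j) (S j), x ∈ U \ insert v X := by
        intro x hx
        have hxU : x ∈ U \ {v} := by
          rcases mem_insert.mp hx with rfl | h
          · exact a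
          · exact b h
        rw [mem_sdiff, mem_insert]
        refine ⟨(mem_sdiff.mp hxU).1, ?_⟩
        rintro (h | h)
        · exact (mem_sdiff.mp hxU).2 (mem_singleton.mpr h)
        · refine (mem_sdiff.mp (hX1 h)).2 ?_
          rw [hZ, mem_biUnion]
          exact ⟨j, mem_range.mpr hj, hx⟩
      exact ⟨hsub _ (mem_insert_self _ _), fun x hx => hsub x (mem_insert_of_mem hx), d, e⟩
    · have hsmall : ∀ v ∈ U, (U.filter (G.Adj v)).card ≤ (m + 1) * (m + 3) := by
        intro v hv
        by_contra hc
        exact hbig ⟨v, hv, by omega⟩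
      obtain ⟨v, hv, hdeg⟩ : ∃ v ∈ U, 2 * (m + 1) ≤ (U.filter (G.Adj v)).card := by
        by_contra hno
        have h1 : dsum G U ≤ U.card * (2 * m + 1) := by
          unfold dsum
          refine (Finset.sum_le_card_nsmul U _ (2 * m + 1) fun v hv => ?_).trans ?_
          · by_contra hc
            exact hno ⟨v, hv, by omega⟩
          · simp
        have e1 : 2 * (m + 1) * U.card = U.card * (2 * m + 1) + U.card := by ring
        rw [e1] at hU
        omega
      obtain ⟨X, hX1, hX2⟩ := exists_subset_card_eq hdeg
      have hXU : X ⊆ U := fun x hx => (mem_filter.mp (hX1 hx)).1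
      have hXadj : ∀ x ∈ X, G.Adj v x := fun x hx => (mem_filter.mp (hX1 hx)).2
      have hvX : v ∉ X := fun h => G.loopless.irrefl v (hXadj v h)
      have hWU : insert v X ⊆ U := insert_subset hv hXU
      refine key v X hv hXU hvX hXadj hX2 (ih _ ?_)
      have h1 := dsum_sdiff G U (insert v X) ((m + 1) * (m + 3))
        (fun x hx => hsmall x (hWU hx)) hWU
      have hWc : (insert v X).card = 2 * m + 3 := by
        rw [card_insert_of_notMem hvX, hX2]; ring
      rw [hWc] at h1
      have h2 : (U \ insert v X).card ≤ U.card := card_le_card sdiff_subset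
      have h3 : 2 * m * (U \ insert v X).card ≤ 2 * m * U.card := Nat.mul_le_mul_left _ h2
      simp only [cst] at hU
      have e1 : 2 * (m + 1) * U.card = 2 * m * U.card + 2 * U.card := by ring
      rw [e1] at hU
      generalize 2 * m * U.card = p at hU h3
      generalize 2 * m * (U \ insert v X).card = p' at h3 ⊢
      generalize (2 * m + 3) * ((m + 1) * (m + 3)) = q at hU h1
      omega

end Pool.Agent.Q165.OW
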