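import Pool.Agent.Q165.OW.Defs
import Pool.Agent.Q165.OW.Star

/-!
# The upper bound for star forests
-/

set_option autoImplicit false

namespace Pool.Agent.Q165.OW

open Finset SimpleGraph

open scoped Classical in
lemma dsum_univ {V : Type} [Fintype V] (G : SimpleGraph V) [DecidableRel G.Adj] :
    dsum G univ = 2 * G.edgeFinset.card := by
  rw [← G.sum_degrees_eq_twice_card_edges]
  unfold dsum
  refine Finset.sum_congr rfl fun v _ => ?_
  rw [← G.card_neighborFinset_eq_degree]
  congr 1
  ext w
  simp

open scoped Classical in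
/-- A system of disjoint stars contains the star forest. -/
lemma contains {V : Type} {G : SimpleGraph V} {m : ℕ} {k : Fin m → ℕ}
    (hk : ∀ i : Fin m, k i + 2 * (i : ℕ) ≤ 2 * m) {U : Finset V} (h : Stars G m U) :
    starForest k ⊑ G := by
  obtain ⟨c, S, h1, h2⟩ := h
  have hlt : ∀ i : Fin m, m - 1 - (i : ℕ) < m := fun i => by
    have := i.2
    omega
  have hcard : ∀ i : Fin m, k i ≤ (S (m - 1 - (i : ℕ))).card := by
    intro i
    rw [(h1 _ (hlt i)).2.2.2]
    have := i.2
    have := hk i
    omega
  choose T hT1 hT2 using fun i : Fin m => exists_subset_card_eq (hcard i)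
  let e : (i : Fin m) → Fin (k i) ≃ T i := fun i => (Fin.castOrderIso (hT2 i).symm).toEquiv.trans (T i).equivFin.symm
  let g : (Σ i, Option (Fin (k i))) → V := fun p => match p with
    | ⟨i, none⟩ => c (m - 1 - (i : ℕ))
    | ⟨i, some j⟩ => (e i j : V)
  have hmem : ∀ (i : Fin m) (x : Option (Fin (k i))),
      g ⟨i, x⟩ ∈ insert (c (m - 1 - (i : ℕ))) (S (m - 1 - (i : ℕ))) := by
    intro i x
    cases x with
    | none => exact mem_insert_self _ _
    | some j => exact mem_insert_of_mem (hT1 i (e i j).2)
  have hadj : ∀ (i : Fin m) (j : Fin (k i)), G.Adj (g ⟨i, none⟩) (g ⟨i, some j⟩) := by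
    intro i j
    exact (h1 _ (hlt i)).2.2.1 _ (hT1 i (e i j).2)
  have hinj : Function.Injective g := by
    rintro ⟨i, x⟩ ⟨i', x'⟩ hxx
    have hi : i = i' := by
      by_contra hne
      have hd := h2 (m - 1 - (i : ℕ)) (m - 1 - (i' : ℕ)) (hlt i) (hlt i') (by
        intro he
        apply hne
        apply Fin.ext
        have := i.2
        have := i'.2
        omega)
      exact Finset.disjoint_left.mp hd (hmem i x) (hxx ▸ hmem i' x')
    subst hi
    cases x with
    | none =>
      cases x' with
      | none => rfl
      | some j' => exact absurd hxx (hadj i j').ne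
    | some j =>
      cases x' with
      | none => exact absurd hxx.symm (hadj i j).ne
      | some j' =>
        have : e i j = e i j' := Subtype.ext hxx
        rw [(e i).injective this]
  refine ⟨⟨⟨g, ?_⟩, hinj⟩⟩
  intro p q hpq
  obtain ⟨i, a, b, rfl, rfl, hab⟩ := disj_elim _ hpq
  rw [star_adj] at hab
  obtain ⟨hne, h⟩ := hab
  cases a with
  | none =>
    cases b with
    | none => exact absurd rfl hne
    | some j => exact hadj i j
  | some j' =>
    cases b with
    | none => exact (hadj i j').symm
    | some j =>
      rcases h with h | h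
      · exact absurd h (by simp)
      · exact absurd h (by simp)

lemma ex_starForest {m : ℕ} (hm : 1 ≤ m) {k : Fin m → ℕ}
    (hk : ∀ i : Fin m, k i + 2 * (i : ℕ) ≤ 2 * m) (n : ℕ) :
    2 * extremalNumber n (starForest k) + n ≤ 2 * m * n + cst m := by
  have h : extremalNumber (Fintype.card (Fin n)) (starForest k) ≤ (2 * m * n + cst m - n) / 2 := by
    rw [extremalNumber_le_iff]
    intro G _ hfree
    have h1 : ¬ (2 * m * (univ : Finset (Fin n)).card + cst m < dsum G univ + (univ : Finset (Fin n)).card) := by
      intro hlt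
      exact hfree (contains hk (stars G m univ hlt))
    rw [dsum_univ, Finset.card_univ, Fintype.card_fin] at h1
    omega
  rw [Fintype.card_fin] at h
  have : 1 * n ≤ 2 * m * n := Nat.mul_le_mul_right _ (by omega)
  omega

end Pool.Agent.Q165.OW
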